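import Mathlib

set_option autoImplicit false

namespace Pool.Agent.Results.MP_150040_al.NotSubdirect

/-- `R` (associative, identity not assumed) has a faithful simple right module -/
def RightPrimitive (R : Type) [NonUnitalRing R] : Prop :=
  ∃ (M : Type) (_ : AddCommGroup M) (act : M →+ R →+ M),
    (∀ (m : M) (r s : R), act m (r * s) = act (act m r) s) ∧
    (∃ (m : M) (r : R), act m r ≠ 0) ∧
    (∀ N : AddSubgroup M, (∀ m ∈ N, ∀ r : R, act m r ∈ N) → N = ⊥ ∨ N = ⊤) ∧
    ∀ r : R, (∀ m : M, act m r = 0) → r = 0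

/-- the intersection of all non-zero two-sided ideals contains a non-zero element -/
def SubdirectlyIndecomposable (S : Type) [NonUnitalRing S] : Prop :=
  ∃ h : S, h ≠ 0 ∧ ∀ J : TwoSidedIdeal S, J ≠ ⊥ → h ∈ J

def K : Type := AlgebraicClosure (ZMod 2)

noncomputable instance : Field K := inferInstanceAs (Field (AlgebraicClosure (ZMod 2)))
instance : Infinite K := inferInstanceAs (Infinite (AlgebraicClosure (ZMod 2)))

noncomputable def σ : K ≃+* K := frobeniusEquiv (AlgebraicClosure (ZMod 2)) 2

theorem σ_apply (a : K) : σ a = a ^ 2 := rfl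

theorem σ_pow (n : ℕ) (a : K) : (σ ^ n) a = a ^ (2 ^ n) := by
  induction n with
  | zero => simp
  | succ n ih => rw [pow_succ', RingAut.mul_apply, ih, σ_apply, ← pow_mul, pow_succ]

theorem σ_ne {n m : ℕ} (h : n ≠ m) : ∃ a : K, (σ ^ n) a ≠ (σ ^ m) a := by
  by_contra hc
  push Not at hc
  have : (Polynomial.X ^ (2 ^ n) : Polynomial K) = Polynomial.X ^ (2 ^ m) := by
    apply Polynomial.funext
    intro a
    simpa [σ_pow] using hc a
  have := congrArg Polynomial.natDegree this
  simp only [Polynomial.natDegree_X_pow] at this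
  exact h (Nat.pow_right_injective (le_refl 2) this)

abbrev E : Type := Module.End ℤ K

noncomputable def L : K →+* E := (Algebra.lmul ℤ K).toRingHom
noncomputable def X : E := (σ : K →+* K).toAddMonoidHom.toIntLinearMap

theorem L_apply (a v : K) : L a v = a * v := rfl
theorem Xpow_apply (n : ℕ) (v : K) : (X ^ n) v = (σ ^ n) v := by
  induction n with
  | zero => simp
  | succ n ih => rw [pow_succ', pow_succ', Module.End.mul_apply, ih]; rfl

theorem XL (n : ℕ) (a : K) : X ^ n * L a = L ((σ ^ n) a) * X ^ n := by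
  refine LinearMap.ext fun v => ?_
  rw [Module.End.mul_apply, Module.End.mul_apply, Xpow_apply, Xpow_apply, L_apply, L_apply, map_mul]

theorem Xpow_ne (n : ℕ) : X ^ n ≠ 0 := by
  intro h
  have := congrArg (fun f : E => f 1) h
  simp [Xpow_apply] at this

noncomputable def T (n : ℕ) : AddSubgroup E :=
  AddSubgroup.closure {f | ∃ (a : K) (k : ℕ), n ≤ k ∧ f = L a * X ^ k}

theorem gen_mem {n k : ℕ} (h : n ≤ k) (a : K) : L a * X ^ k ∈ T n :=
  AddSubgroup.subset_closure ⟨a, k, h, rfl⟩

theorem T_mul {n m : ℕ} {f g : E} (hf : f ∈ T n) (hg : g ∈ T m) : f * g ∈ T (n + m) := by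
  induction hf using AddSubgroup.closure_induction with
  | mem f hf =>
    obtain ⟨a, k, hk, rfl⟩ := hf
    induction hg using AddSubgroup.closure_induction with
    | mem g hg =>
      obtain ⟨b, l, hl, rfl⟩ := hg
      have : L a * X ^ k * (L b * X ^ l) = L (a * (σ ^ k) b) * X ^ (k + l) := by
        rw [map_mul, pow_add, mul_assoc, ← mul_assoc (X ^ k), XL]; simp only [mul_assoc]
      rw [this]
      exact gen_mem (by omega) _
    | zero => simp
    | add g g' _ _ h1 h2 => rw [mul_add]; exact add_mem h1 h2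
    | neg g _ h1 => rw [mul_neg]; exact neg_mem h1
  | zero => simp
  | add g g' _ _ h1 h2 => rw [add_mul]; exact add_mem h1 h2
  | neg g _ h1 => rw [neg_mul]; exact neg_mem h1

theorem Xpow_mem (n : ℕ) : X ^ n ∈ T n := by simpa using gen_mem (le_refl n) 1
theorem L_mem (a : K) : L a ∈ T 0 := by simpa using gen_mem (le_refl 0) a
theorem T_le (n : ℕ) : T n ≤ T 0 :=
  AddSubgroup.closure_mono fun _ ⟨a, k, _, h⟩ => ⟨a, k, Nat.zero_le _, h⟩

theorem T_mul0 {n : ℕ} {f g : E} (hf : f ∈ T n) (hg : g ∈ T 0) : f * g ∈ T n := by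
  have := T_mul hf hg
  rwa [add_zero] at this

theorem T_one : (1 : E) ∈ T 0 := by
  have := Xpow_mem 0
  rwa [pow_zero] at this

noncomputable def S : Subring E where
  carrier := T 0
  mul_mem' := fun hf hg => T_mul0 hf hg
  one_mem' := T_one
  add_mem' := fun hf hg => (T 0).add_mem hf hg
  zero_mem' := (T 0).zero_mem
  neg_mem' := fun hf => (T 0).neg_mem hf

noncomputable def ev : (ℕ →₀ K) →+ E :=
  Finsupp.liftAddHom fun n => (AddMonoidHom.mulRight (X ^ n)).comp L.toAddMonoidHom

theorem ev_single (n : ℕ) (a : K) : ev (Finsupp.single n a) = L a * X ^ n := by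
  simp [ev]

theorem ev_eq (c : ℕ →₀ K) : ev c = ∑ k ∈ c.support, L (c k) * X ^ k := by
  simp [ev, Finsupp.sum]

theorem normal {n : ℕ} {f : E} (hf : f ∈ T n) : ∃ c : ℕ →₀ K, (∀ k < n, c k = 0) ∧ f = ev c := by
  induction hf using AddSubgroup.closure_induction with
  | mem f hf =>
    obtain ⟨a, k, hk, rfl⟩ := hf
    refine ⟨Finsupp.single k a, fun j hj => ?_, (ev_single _ _).symm⟩
    rw [Finsupp.single_eq_of_ne (by omega)]
  | zero => exact ⟨0, by simp, by simp⟩
  | add g g' _ _ h1 h2 =>
    obtain ⟨c, hc, rfl⟩ := h1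
    obtain ⟨d, hd, rfl⟩ := h2
    exact ⟨c + d, fun k hk => by simp [hc k hk, hd k hk], by simp⟩
  | neg g _ h1 =>
    obtain ⟨c, hc, rfl⟩ := h1
    exact ⟨-c, fun k hk => by simp [hc k hk], by simp⟩

/-- an additive subgroup stable under both multiplications by scalars that contains a non-trivial
combination contains a power of `X` -/
theorem key (J : AddSubgroup E) (hl : ∀ a, ∀ f ∈ J, L a * f ∈ J) (hr : ∀ a, ∀ f ∈ J, f * L a ∈ J) :
    ∀ (N : ℕ) (c : ℕ →₀ K), c.support.card ≤ N → c ≠ 0 → ev c ∈ J → ∃ n, X ^ n ∈ J := by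
  intro N
  induction N with
  | zero =>
    intro c h hc
    exact absurd (Finsupp.support_eq_empty.1 (Finset.card_eq_zero.1 (by omega))) hc
  | succ N ih =>
    intro c h hc hJ
    obtain ⟨n, hn⟩ := Finsupp.support_nonempty_iff.2 hc
    by_cases h1 : ∃ m ∈ c.support, m ≠ n
    · obtain ⟨m, hm, hmn⟩ := h1
      obtain ⟨a, ha⟩ := σ_ne hmn
      let d : ℕ →₀ K := Finsupp.onFinset (c.support.erase n)
        (fun k => c k * ((σ ^ k) a - (σ ^ n) a)) (by
          intro k hk
          rw [Finset.mem_erase, Finsupp.mem_support_iff]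
          constructor
          · rintro rfl; simp at hk
          · intro h0; simp [h0] at hk)
      have hd : ∀ k, d k = c k * ((σ ^ k) a - (σ ^ n) a) := fun k => rfl
      have hsub : d.support ⊆ c.support.erase n := Finsupp.support_onFinset_subset
      refine ih d ?_ ?_ ?_
      · have := Finset.card_le_card hsub
        rw [Finset.card_erase_of_mem hn] at this
        omega
      · intro h0
        have := hd m
        rw [h0] at this
        exact mul_ne_zero (Finsupp.mem_support_iff.1 hm) (sub_ne_zero.2 ha) this.symm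
      · have e : ev d = ev c * L a - L ((σ ^ n) a) * ev c := by
          rw [ev_eq d, Finset.sum_subset (hsub.trans (Finset.erase_subset _ _))
            (fun k _ hk => by rw [Finsupp.notMem_support_iff.1 hk]; simp), ev_eq c,
            Finset.sum_mul, Finset.mul_sum, ← Finset.sum_sub_distrib]
          refine Finset.sum_congr rfl fun k _ => ?_
          rw [hd, mul_assoc, XL, ← mul_assoc, ← mul_assoc, ← map_mul, ← map_mul, ← sub_mul,
            ← map_sub]
          congr 2; ring
        rw [e]
        exact sub_mem (hr _ _ hJ) (hl _ _ hJ)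
    · push Not at h1
      have e : c.support = {n} := Finset.eq_singleton_iff_unique_mem.2 ⟨hn, h1⟩
      rw [ev_eq, e, Finset.sum_singleton] at hJ
      have := hl (c n)⁻¹ _ hJ
      rw [← mul_assoc, ← map_mul, inv_mul_cancel₀ (Finsupp.mem_support_iff.1 hn), map_one,
        one_mul] at this
      exact ⟨n, this⟩

theorem ev_inj (c : ℕ →₀ K) (h : ev c = 0) : c = 0 := by
  by_contra hc
  obtain ⟨n, hn⟩ := key ⊥ (by simp) (by simp) _ c le_rfl hc (by simpa using h)
  exact Xpow_ne n (by simpa using hn)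

theorem sep (f : E) (h : ∀ n, f ∈ T n) : f = 0 := by
  obtain ⟨c, -, rfl⟩ := normal (h 0)
  have : c = 0 := by
    ext k
    obtain ⟨d, hd, e⟩ := normal (h (k + 1))
    have : c - d = 0 := ev_inj _ (by rw [map_sub, e, sub_self])
    rw [sub_eq_zero.1 this, hd k (by omega)]; rfl
  simp [this]

theorem left_normal {f : E} (hf : f ∈ T 0) : ∃ g ∈ T 0, f * X = X * g := by
  induction hf using AddSubgroup.closure_induction with
  | mem f hf =>
    obtain ⟨a, k, hk, rfl⟩ := hf
    refine ⟨L (σ.symm a) * X ^ k, gen_mem hk _, ?_⟩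
    have := XL 1 (σ.symm a)
    rw [pow_one, pow_one, RingEquiv.apply_symm_apply] at this
    rw [← mul_assoc, this, mul_assoc, mul_assoc, ← pow_succ, ← pow_succ']
  | zero => exact ⟨0, zero_mem _, by simp⟩
  | add g g' _ _ h1 h2 =>
    obtain ⟨c, hc, e⟩ := h1
    obtain ⟨d, hd, e'⟩ := h2
    exact ⟨c + d, add_mem hc hd, by rw [add_mul, mul_add, e, e']⟩
  | neg g _ h1 =>
    obtain ⟨c, hc, e⟩ := h1
    exact ⟨-c, neg_mem hc, by rw [neg_mul, mul_neg, e]⟩

abbrev R : Type := (↥S)ᵐᵒᵖ

open MulOpposite

theorem X_mem : X ∈ T 0 := by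
  have := T_le 1 (Xpow_mem 1)
  rwa [pow_one] at this

noncomputable def x : R := op ⟨X, X_mem⟩
noncomputable def l (a : K) : R := op ⟨L a, L_mem a⟩
def val (r : R) : E := r.unop.1

theorem val_mul (r s : R) : val (r * s) = val s * val r := rfl
theorem val_inj {r s : R} (h : val r = val s) : r = s := unop_injective (Subtype.ext h)
theorem val_xpow (n : ℕ) : val (x ^ n) = X ^ n := by
  induction n with
  | zero => rfl
  | succ n ih => rw [pow_succ, val_mul, ih, pow_succ']; rfl

theorem prim : RightPrimitive R := by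
  refine ⟨K, inferInstance,
    AddMonoidHom.mk' (fun v => AddMonoidHom.mk' (fun r => val r v) (fun _ _ => rfl))
      (fun v w => by ext r; exact map_add (val _) v w), fun _ _ _ => rfl, ⟨1, 1, ?_⟩, ?_, ?_⟩
  · exact one_ne_zero
  · intro N hN
    by_cases h : N = ⊥
    · exact Or.inl h
    · right
      obtain ⟨⟨v, hv⟩, hv0⟩ := (AddSubgroup.ne_bot_iff_exists_ne_zero).1 h
      have hv1 : v ≠ 0 := fun e => hv0 (Subtype.ext e)
      rw [eq_top_iff]
      intro w _
      have := hN v hv (l (w / v))
      have e : val (l (w / v)) v = w := by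
        show w / v * v = w
        field_simp
      exact e ▸ this
  · intro r hr
    exact val_inj (LinearMap.ext hr)

theorem kill {A : Type} [NonUnitalRing A] (f : R →ₙ+* A) (hf : Function.Surjective f)
    (h1 : RightPrimitive A) (h2 : SubdirectlyIndecomposable A) : f x = 0 := by
  by_cases hinj : ∀ r, f r = 0 → r = 0
  · exfalso
    obtain ⟨h, h0, hh⟩ := h2
    obtain ⟨r, rfl⟩ := hf h
    have hi : Function.Injective f := (injective_iff_map_eq_zero f).2 hinj
    have : ∀ n, val r ∈ T n := by
      intro n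
      let J : TwoSidedIdeal A := TwoSidedIdeal.mk' {a | ∃ s, val s ∈ T n ∧ f s = a}
        ⟨0, zero_mem _, map_zero f⟩
        (by
          rintro _ _ ⟨s, hs, rfl⟩ ⟨s', hs', rfl⟩
          exact ⟨s + s', add_mem hs hs', map_add f _ _⟩)
        (by
          rintro _ ⟨s, hs, rfl⟩
          exact ⟨-s, neg_mem hs, map_neg f _⟩)
        (by
          rintro a _ ⟨s, hs, rfl⟩
          obtain ⟨u, rfl⟩ := hf a
          exact ⟨u * s, T_mul0 hs u.unop.2, map_mul f _ _⟩)
        (by
          rintro _ a ⟨s, hs, rfl⟩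
          obtain ⟨u, rfl⟩ := hf a
          refine ⟨s * u, ?_, map_mul f _ _⟩
          have := T_mul u.unop.2 hs
          rwa [zero_add] at this)
      have hJ : J ≠ ⊥ := by
        intro e
        have : f (x ^ n) ∈ J := by
          rw [TwoSidedIdeal.mem_mk']
          exact ⟨x ^ n, by rw [val_xpow]; exact Xpow_mem n, rfl⟩
        rw [e, TwoSidedIdeal.mem_bot] at this
        have := congrArg val (hinj _ this)
        rw [val_xpow] at this
        exact Xpow_ne n this
      have := hh J hJ
      rw [TwoSidedIdeal.mem_mk'] at this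
      obtain ⟨s, hs, e⟩ := this
      rwa [← hi e]
    have : r = 0 := val_inj (sep _ this)
    exact h0 (by rw [this, map_zero])
  · push Not at hinj
    obtain ⟨r, hr, hr0⟩ := hinj
    let J : AddSubgroup E :=
      { carrier := {g | ∃ s, val s = g ∧ f s = 0}
        zero_mem' := ⟨0, rfl, map_zero f⟩
        add_mem' := by
          rintro _ _ ⟨s, rfl, hs⟩ ⟨s', rfl, hs'⟩
          exact ⟨s + s', rfl, by rw [map_add, hs, hs', add_zero]⟩
        neg_mem' := by
          rintro _ ⟨s, rfl, hs⟩
          exact ⟨-s, rfl, by rw [map_neg, hs, neg_zero]⟩ }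
    obtain ⟨c, -, hc⟩ := normal r.unop.2
    obtain ⟨n, s, hs, hs0⟩ := key J
      (by
        rintro a _ ⟨s, rfl, hs⟩
        exact ⟨s * l a, rfl, by rw [map_mul, hs, zero_mul]⟩)
      (by
        rintro a _ ⟨s, rfl, hs⟩
        exact ⟨l a * s, rfl, by rw [map_mul, hs, mul_zero]⟩) _ c le_rfl
      (by
        rintro rfl
        exact hr0 (val_inj (by rw [map_zero] at hc; exact hc))) ⟨r, hc, hr⟩
    have hs1 : s = x ^ n := val_inj (by rw [hs, val_xpow])
    subst hs1
    obtain ⟨M, _, act, hass, ⟨m0, r0, hm0⟩, hsimp, hfaith⟩ := h1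
    rcases hsimp (act.flip (f x)).range (by
      rintro _ ⟨m, rfl⟩ a
      obtain ⟨u, rfl⟩ := hf a
      obtain ⟨g, hg, e⟩ := left_normal u.unop.2
      refine ⟨act m (f (op ⟨g, hg⟩)), ?_⟩
      simp only [AddMonoidHom.flip_apply]
      rw [← hass, ← hass, ← map_mul, ← map_mul]
      congr 2
      exact val_inj e.symm) with h | h
    · refine hfaith _ fun m => ?_
      have : act.flip (f x) m ∈ (act.flip (f x)).range := ⟨m, rfl⟩
      rw [h] at this
      exact this
    · exfalso
      have hall : ∀ k (m : M), ∃ m', act m (f 1) = act m' (f (x ^ k)) := by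
        intro k
        induction k with
        | zero => exact fun m => ⟨m, by rw [pow_zero]⟩
        | succ k ih =>
          intro m
          obtain ⟨m1, e1⟩ := ih m
          have : m1 ∈ (act.flip (f x)).range := by rw [h]; trivial
          obtain ⟨m2, e2⟩ := this
          refine ⟨m2, ?_⟩
          rw [e1, ← e2, pow_succ', map_mul, hass]; rfl
      obtain ⟨m', e⟩ := hall n m0
      rw [hs0, map_zero] at e
      obtain ⟨u, rfl⟩ := hf r0
      apply hm0
      rw [← one_mul u, map_mul, hass, e]; simp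

/-- There is a (unital) right primitive ring that is not a subdirect product of rings that are
both right primitive and subdirectly indecomposable. -/
theorem result : ∃ (R : Type) (_ : Ring R), RightPrimitive R ∧
    ¬ ∃ (ι : Type) (A : ι → Type) (_ : ∀ i, NonUnitalRing (A i)) (f : ∀ i, R →ₙ+* A i),
      (∀ i, Function.Surjective (f i)) ∧ (∀ r : R, (∀ i, f i r = 0) → r = 0) ∧
      ∀ i, RightPrimitive (A i) ∧ SubdirectlyIndecomposable (A i) := by
  refine ⟨R, inferInstance, prim, ?_⟩
  rintro ⟨ι, A, _, f, h1, h2, h3⟩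
  have := congrArg val (h2 x fun i => kill (f i) (h1 i) (h3 i).1 (h3 i).2)
  exact Xpow_ne 1 (by rw [pow_one]; exact this)

end Pool.Agent.Results.MP_150040_al.NotSubdirect
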